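import Pool.Agent.Helper99_TP2.RuleS
import Pool.Agent.Helper50_TP2.Chain

/-!
# MP_ce3ba7_al, characteristic 2: module RS
-/

set_option autoImplicit false

namespace Pool.Agent.TP.RS

/-- module RS of `Helper50_TP2/Chain.lean` -/
theorem rs : Pool.Agent.TP.H50.RuleS := fun _ _ hR s h => ruleS hR s h

end Pool.Agent.TP.RS
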