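import Pool.Agent.Helper50_TP2.Rules2

/-!
# MP_ce3ba7_al, characteristic 2: rule S (proof by helper50, Lean by helper99)

If `[s,[a,b]] = 0` for all `a`, `b` then `s = 0`.
-/

set_option autoImplicit false
set_option linter.unusedSectionVars false
set_option linter.unusedVariables false
set_option linter.unusedSimpArgs false
set_option linter.unreachableTactic false
set_option linter.unusedTactic false

namespace Pool.Agent.TP.RS

open Pool.Agent.TP Pool.Agent.TP.H50 Pool.Agent.TP.H51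

variable {B : Type} [NonUnitalNonAssocRing B]

section two
variable (h2 : ∀ x : B, x + x = 0)
include h2

lemma zm1 (x : B) : (-1 : ℤ) • x = x := by rw [neg_one_zsmul, neg2 h2]
lemma zp2 (x : B) : (2 : ℤ) • x = 0 := by rw [two_zsmul, h2]
lemma zev (n : ℤ) (x : B) : (2 * n) • x = 0 := by rw [mul_smul, zp2 h2]
lemma zod (n : ℤ) (x : B) : (2 * n + 1) • x = x := by rw [add_smul, zev h2, zero_add, one_smul]
lemma zm2 (x : B) : (-2 : ℤ) • x = 0 := by
  rw [show (-2 : ℤ) = 2 * (-1) by norm_num]; exact zev h2 _ x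
lemma zm3 (x : B) : (-3 : ℤ) • x = x := by
  rw [show (-3 : ℤ) = 2 * (-2) + 1 by norm_num]; exact zod h2 _ x
lemma zm4 (x : B) : (-4 : ℤ) • x = 0 := by
  rw [show (-4 : ℤ) = 2 * (-2) by norm_num]; exact zev h2 _ x
lemma zm5 (x : B) : (-5 : ℤ) • x = x := by
  rw [show (-5 : ℤ) = 2 * (-3) + 1 by norm_num]; exact zod h2 _ x
lemma zm6 (x : B) : (-6 : ℤ) • x = 0 := by
  rw [show (-6 : ℤ) = 2 * (-3) by norm_num]; exact zev h2 _ x
lemma zp3 (x : B) : (3 : ℤ) • x = x := by
  rw [show (3 : ℤ) = 2 * 1 + 1 by norm_num]; exact zod h2 _ x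
lemma zp4 (x : B) : (4 : ℤ) • x = 0 := by
  rw [show (4 : ℤ) = 2 * 2 by norm_num]; exact zev h2 _ x
lemma zp5 (x : B) : (5 : ℤ) • x = x := by
  rw [show (5 : ℤ) = 2 * 2 + 1 by norm_num]; exact zod h2 _ x
lemma zp6 (x : B) : (6 : ℤ) • x = 0 := by
  rw [show (6 : ℤ) = 2 * 3 by norm_num]; exact zev h2 _ x

lemma cm_self (a : B) : cm a a = 0 := h2 _

end two

/-- `z` commutes with all commutators -/
def Z1 (z : B) : Prop := ∀ a b : B, cm z (cm a b) = 0

/-- `u` commutes with all elements of `Z1` -/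
def Cz (u : B) : Prop := ∀ z : B, Z1 z → cm z u = 0

section
variable (hA : IsAlt B) (h2 : ∀ x : B, x + x = 0)
include hA h2

lemma jac (a b c : B) : cm a (cm b c) + cm b (cm c a) + cm c (cm a b) = 0 := by
  have e1 := t12 hA h2 a b c
  have e2 := t12 hA h2 b c a
  have e3 := t12 hA h2 c a b
  rw [asc2 h2, asc2 h2] at e1 e2 e3
  unfold cm
  simp only [mul_add, add_mul]
  linear_combination (norm := (
      (try abel_nf)
      (try simp only [zm1 h2, zm2 h2, zm3 h2, zm4 h2, zm5 h2, zm6 h2, zp2 h2, zp3 h2, zp4 h2,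
        zp5 h2, zp6 h2, add_zero, zero_add]))) e1 + e2 + e3

/-- Jacobi identity, derivation form -/
lemma jac' (a b c : B) : cm a (cm b c) = cm (cm a b) c + cm b (cm a c) := by
  have h := jac hA h2 a b c
  rw [cm_comm c (cm a b), cm_comm c a] at h
  linear_combination (norm := (
      (try abel_nf)
      (try simp only [zm1 h2, zm2 h2, zm3 h2, zm4 h2, zm5 h2, zm6 h2, zp2 h2, zp3 h2, zp4 h2,
        zp5 h2, zp6 h2, add_zero, zero_add]))) h

lemma i1 (a b c : B) : asc a b c = cm (a * b) c + cm (b * c) a + cm (c * a) b := by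
  have e1 := cm_mul hA h2 a b c
  have e2 := cm_mul hA h2 b c a
  have e3 := cm_mul hA h2 c a b
  have e4 := tcyc hA a b c
  have e5 := tcyc hA b c a
  have e6 := jac hA h2 a b c
  rw [e1, e2, e3, ← e5, ← e4]
  unfold cm at *
  simp only [mul_add, add_mul] at *
  linear_combination (norm := (
      (try abel_nf)
      (try simp only [zm1 h2, zm2 h2, zm3 h2, zm4 h2, zm5 h2, zm6 h2, zp2 h2, zp3 h2, zp4 h2,
        zp5 h2, zp6 h2, add_zero, zero_add]))) e6

lemma i5 (w x y z : B) : asc (w * x) y z = w * asc x y z + asc w y z * x +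
    cm y (asc w x z) + cm z (asc w x y) := by
  have e1 := kf_def2 hA h2 w x y z
  rw [kf_sum hA h2] at e1
  have f1 : asc y z w = asc w y z := (tcyc hA w y z).symm
  have f2 : asc z w x = asc w x z := tcyc hA z w x
  rw [f1, f2] at e1
  unfold cm at *
  linear_combination (norm := (
      (try abel_nf)
      (try simp only [zm1 h2, zm2 h2, zm3 h2, zm4 h2, zm5 h2, zm6 h2, zp2 h2, zp3 h2, zp4 h2,
        zp5 h2, zp6 h2, add_zero, zero_add]))) e1

lemma Z1.T {z : B} (h : Z1 z) (a b c : B) : cm z (asc a b c) = 0 := by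
  rw [i1 hA h2, cm_add_right, cm_add_right, h, h, h, add_zero, add_zero]

lemma Z1.C {z : B} (h : Z1 z) (a : B) : Z1 (cm a z) := by
  intro b c
  have e := jac' hA h2 a z (cm b c)
  rw [h b c, cm_zero_right, h a (cm b c), add_zero] at e
  exact e.symm

lemma EE_add (a b c d : B) : EE a b (c + d) = EE a b c + EE a b d := by
  unfold EE
  rw [cm_add_right, asc_add3]
  abel

lemma EE_cm (a b c d : B) : EE a b (cm c d) = cm (EE a b c) d + cm c (EE a b d) := by
  have e1 := EE_mul hA h2 a b c d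
  have e2 := EE_mul hA h2 a b d c
  have : cm c d = c * d + d * c := rfl
  rw [this, EE_add hA h2, e1, e2]
  unfold cm
  abel

lemma EE_asc (a b c d e : B) : EE a b (asc c d e) = asc (EE a b c) d e + asc c (EE a b d) e +
    asc c d (EE a b e) := by
  have e1 : asc c d e = c * d * e + c * (d * e) := asc2 h2 c d e
  rw [e1, EE_add hA h2, EE_mul hA h2, EE_mul hA h2, EE_mul hA h2, EE_mul hA h2, asc2 h2, asc2 h2,
    asc2 h2]
  simp only [add_mul, mul_add]
  abel

lemma EE_Z1 {z : B} (h : Z1 z) (a b : B) : EE a b z = asc z a b := by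
  unfold EE
  rw [cm_comm, h, zero_add]
  exact (tcyc hA z a b).symm

lemma Z1.A {z : B} (h : Z1 z) (b c : B) : Z1 (asc z b c) := by
  intro d e
  have e1 := EE_cm hA h2 b c z (cm d e)
  rw [h, EE_Z1 hA h2 h, EE_cm hA h2 b c d e, cm_add_right, h, h, add_zero, add_zero] at e1
  have e0 : EE b c (0 : B) = 0 := by
    unfold EE
    rw [cm_zero_right, asc_zero3, add_zero]
  rw [e0] at e1
  exact e1.symm

lemma Cz_cm (a b : B) : Cz (cm a b) := fun z h => h a b
lemma Cz_asc (a b c : B) : Cz (asc a b c) := fun z h => h.T hA h2 a b c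

lemma mul_comm_cm {z u : B} (h : cm z u = 0) : z * u = u * z := by
  rw [eq2 h2]
  exact h

lemma m1 (z x q : B) : z * (x * q) = x * (z * q) + cm z x * q := by
  have e := t12 hA h2 z x q
  rw [asc2 h2, asc2 h2] at e
  unfold cm
  simp only [add_mul]
  linear_combination (norm := (
      (try abel_nf)
      (try simp only [zm1 h2, zm2 h2, zm3 h2, zm4 h2, zm5 h2, zm6 h2, zp2 h2, zp3 h2, zp4 h2,
        zp5 h2, zp6 h2, add_zero, zero_add]))) e

lemma m2 (z y v : B) : (z * y) * v = (z * v) * y + z * cm y v := by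
  have e := t23 hA h2 z y v
  rw [asc2 h2, asc2 h2] at e
  unfold cm
  simp only [mul_add]
  linear_combination (norm := (
      (try abel_nf)
      (try simp only [zm1 h2, zm2 h2, zm3 h2, zm4 h2, zm5 h2, zm6 h2, zp2 h2, zp3 h2, zp4 h2,
        zp5 h2, zp6 h2, add_zero, zero_add]))) e

/-- `t(xy,c)` -/
lemma k1 {z : B} (h : Z1 z) (x y c : B) : asc z (x * y) c = asc z x c * y + x * asc z y c +
    cm c (asc z x y) := by
  have e := i5 hA h2 x y c z
  rw [h.T hA h2] at e
  have f1 : asc (x * y) c z = asc z (x * y) c := (tcyc hA z (x * y) c).symm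
  have f2 : asc y c z = asc z y c := (tcyc hA z y c).symm
  have f3 : asc x c z = asc z x c := (tcyc hA z x c).symm
  have f4 : asc x y z = asc z x y := (tcyc hA z x y).symm
  rw [f1, f2, f3, f4] at e
  linear_combination (norm := (
      (try abel_nf)
      (try simp only [zm1 h2, zm2 h2, zm3 h2, zm4 h2, zm5 h2, zm6 h2, zp2 h2, zp3 h2, zp4 h2,
        zp5 h2, zp6 h2, add_zero, zero_add]))) e

lemma cyc_t {z : B} (h : Z1 z) (b c d : B) :
    asc z (b * c) d + asc z (c * d) b + asc z (d * b) c = 0 := by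
  rw [k1 hA h2 h b c d, k1 hA h2 h c d b, k1 hA h2 h d b c, t23 hA h2 z c b, t23 hA h2 z d c,
    t23 hA h2 z d b]
  unfold cm
  linear_combination (norm := (
      (try abel_nf)
      (try simp only [zm1 h2, zm2 h2, zm3 h2, zm4 h2, zm5 h2, zm6 h2, zp2 h2, zp3 h2, zp4 h2,
        zp5 h2, zp6 h2, add_zero, zero_add])))

/-- `t(c,[a,b]) = [a,t(b,c)] + [b,t(a,c)]` -/
lemma t_cm (z a b c : B) : asc z c (cm a b) = cm a (asc z b c) + cm b (asc z a c) := by
  have e := asc_cm hA h2 a b c z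
  have f1 : asc (cm a b) c z = asc z c (cm a b) := by
    rw [← tcyc hA z (cm a b) c, t23 hA h2 z]
  have f2 : asc a c z = asc z a c := (tcyc hA z a c).symm
  have f3 : asc b c z = asc z b c := (tcyc hA z b c).symm
  rw [f1, f2, f3] at e
  rw [e, add_comm]

/-- (ii) -/
lemma ii {z : B} (h : Z1 z) (a b c : B) : cm a z * cm b c + cm b z * cm a c =
    cm a (asc z b c) + cm b (asc z a c) := by
  have e0 : cm z (cm (a * b) c) = 0 := h _ _
  rw [cm_mul hA h2, cm_add_right, cm_add_right, h.T hA h2, add_zero, cm_mul' hA h2,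
    cm_mul' hA h2, h, h, mul_zero, zero_mul, zero_add, add_zero] at e0
  have f1 : asc a (cm b c) z = asc z a (cm b c) := (tcyc hA z a (cm b c)).symm
  have f2 : asc (cm a c) b z = asc z b (cm a c) := by
    rw [← tcyc hA z (cm a c) b, t23 hA h2 z]
  rw [f1, f2, t_cm hA h2, t_cm hA h2, cm_comm z a, cm_comm z b] at e0
  have f3 : cm a c * cm b z = cm b z * cm a c :=
    (mul_comm_cm hA h2 (h.C hA h2 b a c)).symm
  rw [f3, t23 hA h2 z b a, t23 hA h2 z c a, t23 hA h2 z c b] at e0
  linear_combination (norm := (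
      (try abel_nf)
      (try simp only [zm1 h2, zm2 h2, zm3 h2, zm4 h2, zm5 h2, zm6 h2, zp2 h2, zp3 h2, zp4 h2,
        zp5 h2, zp6 h2, add_zero, zero_add]))) e0

end

/-- `psi` -/
def psi (s a b c : B) : B := cm a s * cm b c + cm a (asc s b c)

/-- `chi` -/
def chi (s x y b c : B) : B := asc s x y * cm b c + asc x y (asc s b c) + asc s (cm b c) (cm x y)

/-- `Xi` -/
def Xi (s x y z w : B) : B := asc s x y * cm z w + asc z w (asc s x y)

/-- `Sg` -/
def Sg (s x y b c : B) : B := asc b c (asc s x y) + asc x y (asc s b c) + asc s (cm b c) (cm x y)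

/-- `Th` -/
def Th (s x y z w : B) : B := asc s x (asc y z w)

/-- `om` -/
def om (s x y b c : B) : B := cm x (psi s y b c)

section
variable (hA : IsAlt B) (h2 : ∀ x : B, x + x = 0)
include hA h2

lemma psi23 (s a b c : B) : psi s a c b = psi s a b c := by
  unfold psi
  rw [cm_comm c b, t23 hA h2 s c b]

lemma psi12 {s : B} (h : Z1 s) (a b c : B) : psi s b a c = psi s a b c := by
  have e := ii hA h2 h a b c
  unfold psi
  linear_combination (norm := (
      (try abel_nf)
      (try simp only [zm1 h2, zm2 h2, zm3 h2, zm4 h2, zm5 h2, zm6 h2, zp2 h2, zp3 h2, zp4 h2,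
        zp5 h2, zp6 h2, add_zero, zero_add]))) e

lemma psi13 {s : B} (h : Z1 s) (a b c : B) : psi s c b a = psi s a b c := by
  rw [psi12 hA h2 h b c a, psi23 hA h2 s b a c, psi12 hA h2 h a b c]

lemma psi_cyc {s : B} (h : Z1 s) (a b c : B) : psi s b c a = psi s a b c := by
  rw [psi23 hA h2 s b a c, psi12 hA h2 h a b c]

lemma psi_add1 (s a a' b c : B) : psi s (a + a') b c = psi s a b c + psi s a' b c := by
  unfold psi
  rw [cm_add_left, cm_add_left, add_mul]
  abel

lemma psi_self23 (s a b : B) : psi s a b b = 0 := by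
  unfold psi
  rw [cm_self h2, mul_zero, zero_add, asc_r hA, cm_zero_right]

/-- `psi` vanishes if one argument commutes with `Z1` -/
lemma psi_cz {s u : B} (h : Z1 s) (hu : Cz u) (b c : B) : psi s u b c = 0 := by
  unfold psi
  rw [cm_comm u s, hu s h, zero_mul, zero_add, cm_comm, hu _ (h.A hA h2 b c)]

/-- F4 -/
lemma f4 {s u : B} (h : Z1 s) (hu : Cz u) (a c : B) : cm a s * cm u c = cm a (asc s u c) := by
  have e := psi_cz hA h2 h hu a c
  rw [psi12 hA h2 h a u c] at e
  unfold psi at e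
  rw [eq2 h2]
  exact e

/-- `T([x,s],u,y) = [x,T(s,u,y)]` -/
lemma asc_cms {s : B} (h : Z1 s) (x u y : B) : asc (cm x s) u y = cm x (asc s u y) := by
  rw [asc_cm hA h2, h.T hA h2, zero_add]

/-- D1 -/
lemma d1 {s : B} (h : Z1 s) (x y b c : B) : psi s (x * y) b c =
    x * psi s y b c + psi s x b c * y + chi s x y b c := by
  have hu : Cz (cm b c) := Cz_cm hA h2 b c
  have a1 := cm_mul hA h2 x y s
  have a2 := cm_mul hA h2 x y (asc s b c)
  have a3 : asc x (cm y s) (cm b c) = cm y (asc s x (cm b c)) := by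
    rw [t12 hA h2, asc_cms hA h2 h]
  have a4 := m2 hA h2 (cm x s) y (cm b c)
  have a5 : cm x s * cm y (cm b c) = cm x (asc s (cm b c) y) := by
    rw [cm_comm y, f4 hA h2 h hu]
  have a6 := t_cm hA h2 s x y (cm b c)
  rw [asc2 h2] at a3
  have a7 : asc x y s = asc s x y := (tcyc hA s x y).symm
  rw [a7] at a1
  have a8 : asc s y (cm b c) = asc s (cm b c) y := t23 hA h2 _ _ _
  rw [a8] at a6
  unfold psi chi
  rw [a1, a2, a6]
  simp only [add_mul, mul_add]
  rw [a5] at a4
  linear_combination (norm := (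
      (try abel_nf)
      (try simp only [zm1 h2, zm2 h2, zm3 h2, zm4 h2, zm5 h2, zm6 h2, zp2 h2, zp3 h2, zp4 h2,
        zp5 h2, zp6 h2, add_zero, zero_add]))) a3 + a4

lemma chi12 (s x y b c : B) : chi s y x b c = chi s x y b c := by
  unfold chi
  rw [t23 hA h2 s y x, t12 hA h2 y x, cm_comm y x]

lemma chi34 (s x y b c : B) : chi s x y c b = chi s x y b c := by
  unfold chi
  rw [cm_comm c b, t23 hA h2 s c b]

/-- D2 -/
lemma d2 {s : B} (h : Z1 s) (x y b c : B) : om s x y b c = om s y x b c := by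
  have e1 := d1 hA h2 h x y b c
  have e2 := d1 hA h2 h y x b c
  rw [chi12 hA h2] at e2
  have e3 := psi_cz hA h2 h (Cz_cm hA h2 x y) b c
  have : cm x y = x * y + y * x := rfl
  rw [this, psi_add1 hA h2, e1, e2] at e3
  unfold om cm
  linear_combination (norm := (
      (try abel_nf)
      (try simp only [zm1 h2, zm2 h2, zm3 h2, zm4 h2, zm5 h2, zm6 h2, zp2 h2, zp3 h2, zp4 h2,
        zp5 h2, zp6 h2, add_zero, zero_add]))) e3

lemma om34 (s x y b c : B) : om s x y c b = om s x y b c := by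
  unfold om
  rw [psi23 hA h2]

lemma om23 {s : B} (h : Z1 s) (x y b c : B) : om s x b y c = om s x y b c := by
  unfold om
  rw [psi12 hA h2 h]

lemma om_cz {s u : B} (h : Z1 s) (hu : Cz u) (y b c : B) : om s u y b c = 0 := by
  rw [d2 hA h2 h]
  unfold om
  rw [psi_cz hA h2 h hu, cm_zero_right]

lemma psi_Z1 {s : B} (h : Z1 s) (x y z : B) : Z1 (psi s x y z) := by
  intro a b
  rw [cm_comm]
  exact om_cz hA h2 h (Cz_cm hA h2 a b) x y z

/-- E2 -/
lemma e2 {s : B} (h : Z1 s) (a b c d : B) : cm a s * asc b c d = om s a b c d +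
    chi s b c a d + chi s c d a b + chi s d b a c := by
  have p1 := d1 hA h2 h b c a d
  have p2 := d1 hA h2 h c d a b
  have p3 := d1 hA h2 h d b a c
  have q : ∀ u v : B, psi s u a v = cm a s * cm u v + cm a (asc s u v) := by
    intro u v
    rw [psi12 hA h2 h a u v]
    rfl
  have r := cyc_t hA h2 h b c d
  have r1 := congrArg (fun w => cm a w) r
  simp only [cm_add_right, cm_zero_right] at r1
  have i := i1 hA h2 b c d
  have t1 : cm a s * asc b c d = cm a s * cm (b * c) d + cm a s * cm (c * d) b +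
      cm a s * cm (d * b) c := by
    rw [i, mul_add, mul_add]
  rw [q (b * c) d] at p1
  rw [q (c * d) b] at p2
  rw [q (d * b) c] at p3
  have o1 : om s a b c d = cm b (psi s c a d) := by
    rw [d2 hA h2 h a b c d]
    unfold om
    rw [psi12 hA h2 h]
  have o2 : om s a b c d = cm c (psi s d a b) := by
    rw [← om23 hA h2 h a b c d, d2 hA h2 h]
    unfold om
    rw [psi_cyc hA h2 h d a b, psi23 hA h2]
  have o3 : om s a b c d = cm d (psi s b a c) := by
    rw [← om34 hA h2 s a b c d, ← om23 hA h2 h a b d c, d2 hA h2 h]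
    unfold om
    rw [psi12 hA h2 h]
  have s1 : psi s d a c = psi s c a d := psi13 hA h2 h c a d
  have s2 : psi s d a b = psi s b a d := psi13 hA h2 h b a d
  have s3 : psi s c a b = psi s b a c := psi13 hA h2 h b a c
  have oo : om s a b c d = cm b (psi s c a d) + cm c (psi s d a b) + cm d (psi s b a c) := by
    rw [← o1, ← o2, ← o3, h2, zero_add]
  rw [t1, oo]
  rw [s1] at p3
  rw [s2] at p2 ⊢
  rw [s3] at p2
  unfold cm at p1 p2 p3 r1 ⊢
  linear_combination (norm := (
      (try abel_nf)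
      (try simp only [zm1 h2, zm2 h2, zm3 h2, zm4 h2, zm5 h2, zm6 h2, zp2 h2, zp3 h2, zp4 h2,
        zp5 h2, zp6 h2, add_zero, zero_add]))) p1 + p2 + p3 + r1

/-- G -/
lemma gg {s : B} (h : Z1 s) (x y b c : B) : chi s x y b c = Xi s x c b y + Xi s y c b x +
    cm b s * asc x y c + om s b x y c := by
  have a1 := cm_mul hA h2 x y c
  have a2 := k1 hA h2 h x y c
  have a3 := m1 hA h2 (cm b s) x (cm y c)
  have a4 := asc2 h2 (cm b s) (cm x c) y
  have a5 := cm_mul' hA h2 (asc s x c) y b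
  have a6 := cm_mul' hA h2 x (asc s y c) b
  have a7 := asc_cms hA h2 h b (cm x c) y
  have a7' := t_cm hA h2 s x c y
  rw [t23 hA h2 s (cm x c) y, a7', cm_add_right] at a7
  have a8 := jac' hA h2 b x s
  rw [cm_comm (cm b x) s, h, zero_add, cm_comm x (cm b s)] at a8
  have a9 := cm_mul' hA h2 (cm x s) (cm y c) b
  have a10 := f4 hA h2 h (Cz_cm hA h2 y c) x b
  rw [cm_comm (cm y c) b] at a10
  have a11 := asc_cms hA h2 h x (cm y c) b
  have a12 : cm b x * asc s y c = asc s y c * cm b x :=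
    (mul_comm_cm hA h2 (h.A hA h2 y c b x)).symm
  have f1 : asc (asc s x c) y b = asc b y (asc s x c) := by
    rw [tcyc hA, t12 hA h2]
  have f2 : asc x (asc s y c) b = asc b x (asc s y c) := by
    rw [← tcyc hA b x]
  have p1 := d1 hA h2 h x y b c
  rw [psi12 hA h2 h b (x * y) c, psi12 hA h2 h b y c, psi12 hA h2 h b x c] at p1
  unfold psi at p1
  rw [a1, a2] at p1
  simp only [cm_add_right, mul_add, add_mul] at p1
  rw [a3, a5, a6, f1, f2, a12] at p1
  unfold om psi Xi
  rw [cm_add_right, a9, a10, a11]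
  rw [a7] at a4
  rw [a8]
  have f3 : asc s c y = asc s y c := t23 hA h2 _ _ _
  rw [f3] at a4
  linear_combination (norm := (
      (try abel_nf)
      (try simp only [zm1 h2, zm2 h2, zm3 h2, zm4 h2, zm5 h2, zm6 h2, zp2 h2, zp3 h2, zp4 h2,
        zp5 h2, zp6 h2, add_zero, zero_add]))) p1 + a4

lemma chi_eq (s x y b c : B) : chi s x y b c = Xi s x y b c + Sg s x y b c := by
  unfold chi Xi Sg
  linear_combination (norm := (
      (try abel_nf)
      (try simp only [zm1 h2, zm2 h2, zm3 h2, zm4 h2, zm5 h2, zm6 h2, zp2 h2, zp3 h2, zp4 h2,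
        zp5 h2, zp6 h2, add_zero, zero_add])))

lemma Sg12 (s x y b c : B) : Sg s y x b c = Sg s x y b c := by
  unfold Sg
  rw [t23 hA h2 s y x, t12 hA h2 y x, cm_comm y x]

lemma Sg34 (s x y b c : B) : Sg s x y c b = Sg s x y b c := by
  unfold Sg
  rw [t23 hA h2 s c b, t12 hA h2 c b, cm_comm c b]

lemma Sg_ex (s x y b c : B) : Sg s b c x y = Sg s x y b c := by
  unfold Sg
  rw [t23 hA h2 s (cm x y)]
  abel

lemma Xi12 (s x y b c : B) : Xi s y x b c = Xi s x y b c := by
  unfold Xi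
  rw [t23 hA h2 s y x]

lemma Xi34 (s x y b c : B) : Xi s x y c b = Xi s x y b c := by
  unfold Xi
  rw [t12 hA h2 c b, cm_comm c b]

lemma Sg14 {s : B} (h : Z1 s) (x y b c : B) : Sg s y c b x = Sg s x c b y := by
  have e := gg hA h2 h x y b c
  have f := e2 hA h2 h b x y c
  rw [chi_eq hA h2 s y c, chi_eq hA h2 s c x, Sg12 hA h2 s x c, Xi12 hA h2 s x c] at f
  linear_combination (norm := (
      (try abel_nf)
      (try simp only [zm1 h2, zm2 h2, zm3 h2, zm4 h2, zm5 h2, zm6 h2, zp2 h2, zp3 h2, zp4 h2,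
        zp5 h2, zp6 h2, add_zero, zero_add]))) e + f

lemma Sg_Th {s : B} (h : Z1 s) (b c d e : B) : Sg s b c d e = Th s e b c d + Th s d b c e := by
  have e1 := EE_asc hA h2 b c s d e
  rw [EE_Z1 hA h2 (h.A hA h2 d e), EE_Z1 hA h2 h] at e1
  have f1 : asc (asc s d e) b c = asc b c (asc s d e) := tcyc hA _ _ _
  have f2 : asc (asc s b c) d e = asc d e (asc s b c) := tcyc hA _ _ _
  rw [f1, f2] at e1
  have g1 := t_cm hA h2 s (cm b c) d e
  have g2 := t_cm hA h2 s (cm b c) e d
  have g3 := t_cm hA h2 s d e (cm b c)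
  have z1 : cm (cm b c) (asc s d e) = 0 := by
    rw [cm_comm (cm b c) (asc s d e)]; exact h.A hA h2 d e b c
  have z2 : cm (cm b c) (asc s e d) = 0 := by
    rw [cm_comm (cm b c) (asc s e d)]; exact h.A hA h2 e d b c
  rw [z1, zero_add] at g1
  rw [z2, zero_add] at g2
  rw [t23 hA h2 s e (cm b c), t23 hA h2 s d (cm b c)] at g3
  unfold EE at e1
  rw [asc_add2, asc_add3, t23 hA h2 s (cm (cm b c) d) e, g1, g2, t23 hA h2 s (asc b c d) e] at e1
  unfold Sg Th
  rw [t23 hA h2 s (cm d e) (cm b c), g3]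
  linear_combination (norm := (
      (try abel_nf)
      (try simp only [zm1 h2, zm2 h2, zm3 h2, zm4 h2, zm5 h2, zm6 h2, zp2 h2, zp3 h2, zp4 h2,
        zp5 h2, zp6 h2, add_zero, zero_add]))) e1

lemma Sg24 {s : B} (h : Z1 s) (b c d e : B) : Sg s b e d c = Sg s b c d e := by
  rw [Sg12 hA h2 s e b d c, Sg14 hA h2 h c e d b, Sg12 hA h2 s b c d e]

lemma Sg23 {s : B} (h : Z1 s) (b c d e : B) : Sg s b d c e = Sg s b c d e := by
  rw [Sg12 hA h2 s d b c e, Sg34 hA h2 s d b e c, Sg14 hA h2 h c d e b, Sg12 hA h2 s b c e d,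
    Sg34 hA h2 s b c d e]

lemma Sg_zero {s : B} (h : Z1 s) (b c d e : B) : Sg s b c d e = 0 := by
  have s1 := Sg_Th hA h2 h b c d e
  have s2 := Sg_Th hA h2 h b e d c
  have s3 := Sg_Th hA h2 h b d e c
  have q1 : Sg s b e d c = Sg s b c d e := Sg24 hA h2 h b c d e
  have q2 : Sg s b d e c = Sg s b c d e := by
    rw [Sg34 hA h2 s b d c e, Sg23 hA h2 h b c d e]
  rw [q1] at s2
  rw [q2] at s3
  have u1 : Th s c b e d = Th s c b d e := by
    unfold Th
    rw [t23 hA h2 b e d]
  have u2 : Th s d b e c = Th s d b c e := by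
    unfold Th
    rw [t23 hA h2 b e c]
  have u3 : Th s e b d c = Th s e b c d := by
    unfold Th
    rw [t23 hA h2 b d c]
  rw [u1, u2] at s2
  rw [u3] at s3
  linear_combination (norm := (
      (try abel_nf)
      (try simp only [zm1 h2, zm2 h2, zm3 h2, zm4 h2, zm5 h2, zm6 h2, zp2 h2, zp3 h2, zp4 h2,
        zp5 h2, zp6 h2, add_zero, zero_add]))) s1 + s2 + s3

lemma chi_Xi {s : B} (h : Z1 s) (x y b c : B) : chi s x y b c = Xi s x y b c := by
  rw [chi_eq hA h2, Sg_zero hA h2 h, add_zero]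

lemma Th14 {s : B} (h : Z1 s) (x y z w : B) : Th s x y z w = Th s y x z w := by
  have e := Sg_Th hA h2 h z w x y
  rw [Sg_zero hA h2 h] at e
  unfold Th at e ⊢
  rw [tcyc hA y z w, tcyc hA x z w, eq2 h2, e]
  abel

/-- `T(x,xy,z) = T(x,y,z) x`, `T(x,yx,z) = x T(x,y,z)` -/
lemma mf2 (x y z : B) : asc x (y * x) z = x * asc x y z := by
  have eC := teich x x z y
  rw [sub2 h2, asc_l hA x (z * y), asc_l hA x z] at eC
  have eD := teich y x x z
  rw [sub2 h2, asc_l hA, asc_r hA] at eD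
  have f2 : asc y x (x * z) = asc x (x * z) y := tcyc hA _ _ _
  have f3 : asc (y * x) x z = asc x (y * x) z := t12 hA h2 _ _ _
  have f4 : asc y (x * x) z = asc (x * x) y z := t12 hA h2 _ _ _
  rw [f2, f3, f4] at eD
  have f5 : asc (x * x) z y = asc (x * x) y z := t23 hA h2 _ _ _
  have f6 : asc x z y = asc x y z := t23 hA h2 _ _ _
  rw [f5, f6] at eC
  simp only [mul_zero, zero_mul, add_zero] at eC eD
  linear_combination (norm := (
      (try abel_nf)
      (try simp only [zm1 h2, zm2 h2, zm3 h2, zm4 h2, zm5 h2, zm6 h2, zp2 h2, zp3 h2, zp4 h2,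
        zp5 h2, zp6 h2, add_zero, zero_add]))) eC + eD

lemma mf1 (x y z : B) : asc x (x * y) z = asc x y z * x := by
  have eA := teich x x y z
  rw [sub2 h2, asc_l hA x (y * z), asc_l hA x y] at eA
  have e3 := teich y z x x
  rw [sub2 h2, asc_r hA, asc_r hA] at e3
  have f1 : asc y (z * x) x = asc x (z * x) y := by
    rw [t23 hA h2 y (z * x) x, t12 hA h2 y x, t23 hA h2 x y]
  have f2 : asc y z (x * x) = asc (x * x) y z := (tcyc hA _ _ _).symm
  have f3 : asc y z x = asc x y z := (tcyc hA _ _ _).symm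
  rw [f1, mf2 hA h2, f2, f3, t23 hA h2 x z y] at e3
  simp only [mul_zero, zero_mul, add_zero, zero_add] at eA e3
  linear_combination (norm := (
      (try abel_nf)
      (try simp only [zm1 h2, zm2 h2, zm3 h2, zm4 h2, zm5 h2, zm6 h2, zp2 h2, zp3 h2, zp4 h2,
        zp5 h2, zp6 h2, add_zero, zero_add]))) eA + e3

/-- RR1 -/
lemma rr1 (x y z : B) : asc x y (asc x y z) = asc x y z * cm x y := by
  have h0 : asc (x * y) x y = 0 := by
    rw [t12 hA h2, mf1 hA h2, asc_r hA, zero_mul]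
  have h1 : asc x y (y * z) = asc x y z * y := by
    rw [tcyc hA, mf1 hA h2, ← tcyc hA]
  have h3 : asc x y (x * (y * z)) = asc x y z * y * x := by
    rw [t23 hA h2, mf1 hA h2, t23 hA h2, h1]
  have h4 : kf (x * y) z x y = asc x y (asc x y z) := by
    rw [kf_swap hA x y (x * y) z, kf_def2 hA h2, asc_l hA]
    have g1 : asc x (x * y) z = asc x y z * x := mf1 hA h2 _ _ _
    have g2 : asc y (x * y) z = y * asc x y z := by
      rw [mf2 hA h2, t12 hA h2 y x]
    rw [g1, g2, zero_add]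
    have g3 : asc x y (asc x y z) = asc y (asc x y z) x := tcyc hA _ _ _
    rw [g3, asc2 h2 y (asc x y z) x]
    abel
  have h5 : asc x y (x * y * z) = asc x y (asc x y z) + asc x y z * (x * y) := by
    have g := kf_def2 hA h2 (x * y) z x y
    rw [h4, h0, mul_zero, add_zero] at g
    have f1 : asc (x * y * z) x y = asc x y (x * y * z) := tcyc hA _ _ _
    have f2 : asc z x y = asc x y z := tcyc hA _ _ _
    rw [f1, f2] at g
    linear_combination (norm := (
      (try abel_nf)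
      (try simp only [zm1 h2, zm2 h2, zm3 h2, zm4 h2, zm5 h2, zm6 h2, zp2 h2, zp3 h2, zp4 h2,
        zp5 h2, zp6 h2, add_zero, zero_add]))) g
  have h6 : asc x y (asc x y z) = asc x y (x * y * z) + asc x y (x * (y * z)) := by
    have : asc x y z = x * y * z + x * (y * z) := asc2 h2 _ _ _
    conv_lhs => rw [this]
    rw [asc_add3]
  have h7 : asc x y z * (x * y) = asc x y z * y * x := by
    rw [h5, h3] at h6
    linear_combination (norm := (
      (try abel_nf)
      (try simp only [zm1 h2, zm2 h2, zm3 h2, zm4 h2, zm5 h2, zm6 h2, zp2 h2, zp3 h2, zp4 h2,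
        zp5 h2, zp6 h2, add_zero, zero_add]))) h6
  have h8 : asc x y (asc x y z) = asc (asc x y z) y x := by
    rw [← tcyc hA (asc x y z) x y, t23 hA h2]
  rw [h8, asc2 h2]
  unfold cm
  rw [mul_add, h7]

lemma rr1_lin (s x w y z : B) :
    asc x y (asc w s z) + asc x s (asc w y z) + asc w y (asc x s z) + asc w s (asc x y z) =
    asc x y z * cm w s + asc x s z * cm w y + asc w y z * cm x s + asc w s z * cm x y := by
  have e1 := rr1 hA h2 (x + w) (y + s) z
  have e2 := rr1 hA h2 (x + w) y z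
  have e3 := rr1 hA h2 (x + w) s z
  have e4 := rr1 hA h2 x (y + s) z
  have e5 := rr1 hA h2 w (y + s) z
  have e6 := rr1 hA h2 x y z
  have e7 := rr1 hA h2 x s z
  have e8 := rr1 hA h2 w y z
  have e9 := rr1 hA h2 w s z
  simp only [asc_add1, asc_add2, asc_add3, cm_add_left, cm_add_right, mul_add, add_mul] at e1 e2 e3 e4 e5
  linear_combination (norm := (
      (try abel_nf)
      (try simp only [zm1 h2, zm2 h2, zm3 h2, zm4 h2, zm5 h2, zm6 h2, zp2 h2, zp3 h2, zp4 h2,
        zp5 h2, zp6 h2, add_zero, zero_add]))) e1 + e2 + e3 + e4 + e5 + e6 + e7 + e8 + e9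

/-- linearised RR1 -/
lemma mm {s : B} (h : Z1 s) (x w y z : B) : Xi s w z x y + Xi s x z w y =
    cm w s * asc x y z + cm x s * asc w y z := by
  have e := rr1_lin hA h2 s x w y z
  have t1 := Th14 hA h2 h w x y z
  unfold Th at t1
  have f1 : asc w s z = asc s w z := t12 hA h2 _ _ _
  have f2 : asc x s z = asc s x z := t12 hA h2 _ _ _
  have f3 : asc w s (asc x y z) = asc s w (asc x y z) := t12 hA h2 _ _ _
  have f4 : asc x s (asc w y z) = asc s x (asc w y z) := t12 hA h2 _ _ _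
  have f5 : asc x y z * cm w s = cm w s * asc x y z :=
    (mul_comm_cm hA h2 ((h.C hA h2 w).T hA h2 x y z)).symm
  have f6 : asc w y z * cm x s = cm x s * asc w y z :=
    (mul_comm_cm hA h2 ((h.C hA h2 x).T hA h2 w y z)).symm
  rw [f1, f2, f3, f4, f5, f6, t1] at e
  unfold Xi
  linear_combination (norm := (
      (try abel_nf)
      (try simp only [zm1 h2, zm2 h2, zm3 h2, zm4 h2, zm5 h2, zm6 h2, zp2 h2, zp3 h2, zp4 h2,
        zp5 h2, zp6 h2, add_zero, zero_add]))) e

lemma Xi13 {s : B} (h : Z1 s) (x w y z : B) : Xi s w y x z = Xi s x y w z := by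
  have e := mm hA h2 h x w y z
  have e1 := e2 hA h2 h w x y z
  have e2' := e2 hA h2 h x w y z
  simp only [chi_Xi hA h2 h] at e1 e2'
  rw [d2 hA h2 h x w] at e2'
  rw [e1, e2'] at e
  rw [Xi12 hA h2 s x z w y, Xi12 hA h2 s w z x y, Xi34 hA h2 s y z w x] at e
  linear_combination (norm := (
      (try abel_nf)
      (try simp only [zm1 h2, zm2 h2, zm3 h2, zm4 h2, zm5 h2, zm6 h2, zp2 h2, zp3 h2, zp4 h2,
        zp5 h2, zp6 h2, add_zero, zero_add]))) e

lemma Xi23 {s : B} (h : Z1 s) (x y w z : B) : Xi s x w y z = Xi s x y w z := by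
  rw [Xi12 hA h2 s w x y z, Xi13 hA h2 h y w x z, Xi12 hA h2 s x y w z]

/-- `[a,s](b,c,d) = om + Xi` -/
lemma L_eq {s : B} (h : Z1 s) (a b c d : B) : cm a s * asc b c d = om s a b c d + Xi s a b c d := by
  have e1 := e2 hA h2 h a b c d
  simp only [chi_Xi hA h2 h] at e1
  have p1 : Xi s b c a d = Xi s a b c d := by
    rw [Xi23 hA h2 h b a c d, Xi12 hA h2 s a b c d]
  have p2 : Xi s c d a b = Xi s a b c d := by
    rw [Xi23 hA h2 h c a d b, Xi12 hA h2 s a c d b, Xi34 hA h2 s a c b d, Xi23 hA h2 h a b c d]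
  have p3 : Xi s d b a c = Xi s a b c d := by
    rw [Xi13 hA h2 h a d b c, Xi34 hA h2 s a b c d]
  rw [p1, p2, p3] at e1
  linear_combination (norm := (
      (try abel_nf)
      (try simp only [zm1 h2, zm2 h2, zm3 h2, zm4 h2, zm5 h2, zm6 h2, zp2 h2, zp3 h2, zp4 h2,
        zp5 h2, zp6 h2, add_zero, zero_add]))) e1

/-- `Xi` vanishes if one argument is in `Cz` -/
lemma Xi_cz {s u : B} (h : Z1 s) (hu : Cz u) (b c d : B) : Xi s u b c d = 0 := by
  have e := L_eq hA h2 h u b c d
  rw [cm_comm u s, hu s h, zero_mul, om_cz hA h2 h hu, zero_add] at e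
  exact e.symm

lemma Cz_add {u v : B} (hu : Cz u) (hv : Cz v) : Cz (u + v) := fun z h => by
  rw [cm_add_right, hu z h, hv z h, add_zero]

lemma EE_psi {s : B} (h : Z1 s) (d e x y c : B) :
    psi (asc s d e) x y c = asc d e (psi s x y c) := by
  have hx : ∀ x, Cz (EE d e x) := fun x => by
    unfold EE
    exact Cz_add hA h2 (Cz_cm hA h2 _ _) (Cz_asc hA h2 _ _ _)
  have e0 : EE d e (psi s x y c) = asc d e (psi s x y c) := by
    unfold EE
    rw [cm_comm (cm d e), psi_Z1 hA h2 h x y c d e, zero_add]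
  have e1 : EE d e (psi s x y c) = psi (asc s d e) x y c + psi s (EE d e x) y c +
      psi s x (EE d e y) c + psi s x y (EE d e c) := by
    unfold psi
    rw [EE_add hA h2, EE_mul hA h2, EE_cm hA h2, EE_cm hA h2, EE_cm hA h2, EE_asc hA h2,
      EE_Z1 hA h2 h]
    simp only [cm_add_right, mul_add, add_mul]
    linear_combination (norm := (
      (try abel_nf)
      (try simp only [zm1 h2, zm2 h2, zm3 h2, zm4 h2, zm5 h2, zm6 h2, zp2 h2, zp3 h2, zp4 h2,
        zp5 h2, zp6 h2, add_zero, zero_add])))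
  rw [psi_cz hA h2 h (hx x), psi12 hA h2 h (EE d e y) x c, psi_cz hA h2 h (hx y),
    psi13 hA h2 h (EE d e c) y x, psi_cz hA h2 h (hx c), e0] at e1
  rw [e1, add_zero, add_zero, add_zero]

/-- (ii') -/
lemma iip {s : B} (h : Z1 s) (d e x y c : B) : Xi s d e (x * y) c =
    x * Xi s d e y c + Xi s d e x c * y + asc s d e * asc x y c + asc d e (psi s x y c) := by
  have hg : Z1 (asc s d e) := h.A hA h2 d e
  rw [← EE_psi hA h2 h]
  unfold Xi psi
  generalize asc s d e = g at *
  have a1 : asc (x * y) c g = asc g (x * y) c := (tcyc hA _ _ _).symm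
  have a2 : asc y c g = asc g y c := (tcyc hA _ _ _).symm
  have a3 : asc x c g = asc g x c := (tcyc hA _ _ _).symm
  have a4 := m1 hA h2 g x (cm y c)
  have a5 := asc2 h2 g (cm x c) y
  have a6 : asc g (cm x c) y = cm c (asc g x y) + cm x (asc g y c) := by
    rw [t12 hA h2 g, asc_cm hA h2, t12 hA h2 x g, t12 hA h2 c g, t23 hA h2 g c]
  rw [a6] at a5
  rw [a1, a2, a3, k1 hA h2 hg, cm_mul hA h2 x y c]
  simp only [mul_add, add_mul]
  rw [a4, cm_comm x g]
  linear_combination (norm := (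
      (try abel_nf)
      (try simp only [zm1 h2, zm2 h2, zm3 h2, zm4 h2, zm5 h2, zm6 h2, zp2 h2, zp3 h2, zp4 h2,
        zp5 h2, zp6 h2, add_zero, zero_add]))) a5

/-- (i') -/
lemma ip {s : B} (h : Z1 s) (x y c d e : B) : Xi s (x * y) c d e =
    Xi s x c d e * y + x * Xi s y c d e + asc s x c * asc d e y + asc s y c * asc d e x +
      asc x y (psi s c d e) := by
  have hg : Z1 (asc s x y) := h.A hA h2 x y
  have hv : Z1 (asc s y c) := h.A hA h2 y c
  have hw : Z1 (asc s x c) := h.A hA h2 x c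
  have hz : Z1 (asc s (x * y) c) := h.A hA h2 (x * y) c
  have hu : Cz (cm d e) := Cz_cm hA h2 d e
  have b1 : asc d e (asc s (x * y) c) = EE d e (asc s (x * y) c) := by
    unfold EE
    rw [cm_comm (cm d e), hz d e, zero_add]
  have b2 : Xi s (x * y) c d e = asc s (x * y) c * cm d e + EE d e (asc s (x * y) c) := by
    rw [← b1]; rfl
  have b3 : EE d e (asc s x c) = asc d e (asc s x c) := by
    unfold EE
    rw [cm_comm (cm d e), hw d e, zero_add]
  have b4 : EE d e (asc s y c) = asc d e (asc s y c) := by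
    unfold EE
    rw [cm_comm (cm d e), hv d e, zero_add]
  have b5 : EE d e (asc s x y) = asc d e (asc s x y) := by
    unfold EE
    rw [cm_comm (cm d e), hg d e, zero_add]
  have b6 : cm (EE d e c) (asc s x y) = 0 := by
    rw [cm_comm]
    exact Cz_add hA h2 (Cz_cm hA h2 _ _) (Cz_asc hA h2 _ _ _) _ hg
  have b7 : Xi s y c (cm d e) x = 0 := by
    rw [Xi13 hA h2 h (cm d e) y c x]
    exact Xi_cz hA h2 h hu _ _ _
  have b8 : asc x (asc s y c) (cm d e) = asc (cm d e) x (asc s y c) := (tcyc hA _ _ _).symm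
  have b9 := asc2 h2 x (asc s y c) (cm d e)
  have b10 := m2 hA h2 (asc s x c) y (cm d e)
  have b11 : asc s y c * cm (cm d e) x = cm (cm d e) x * asc s y c :=
    mul_comm_cm hA h2 (hv _ _)
  have b12 : asc s y c * asc d e x = asc d e x * asc s y c :=
    mul_comm_cm hA h2 (hv.T hA h2 _ _ _)
  have b13 : asc x y (psi s c d e) = cm c (asc s x y) * cm d e + cm c (asc d e (asc s x y)) := by
    rw [← EE_psi hA h2 h, ← tcyc hA (asc s x y) d e]
    rfl
  unfold Xi at b7
  rw [b2, k1 hA h2 h x y c, EE_add hA h2, EE_add hA h2, EE_mul hA h2, EE_mul hA h2, EE_cm hA h2,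
    b3, b4, b5, b6, b13, b12]
  rw [b8] at b9
  unfold Xi
  rw [b11] at b7
  have b14 : EE d e y = cm (cm d e) y + asc d e y := rfl
  have b15 : EE d e x = cm (cm d e) x + asc d e x := rfl
  rw [b14, b15, cm_comm (cm d e) y]
  simp only [mul_add, add_mul]
  linear_combination (norm := (
      (try abel_nf)
      (try simp only [zm1 h2, zm2 h2, zm3 h2, zm4 h2, zm5 h2, zm6 h2, zp2 h2, zp3 h2, zp4 h2,
        zp5 h2, zp6 h2, add_zero, zero_add]))) b7 + b9 + b10

lemma XiX {s : B} (h : Z1 s) (x y z w : B) : Xi s z w x y = Xi s x y z w := by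
  rw [Xi13 hA h2 h x z w y, Xi12 hA h2 s w x z y, Xi34 hA h2 s w x y z, Xi13 hA h2 h y w x z,
    Xi12 hA h2 s x y w z, Xi34 hA h2 s x y z w]

lemma kxy {s : B} (h : Z1 s) (x y c d e : B) : cm x (Xi s d e y c) = cm y (Xi s d e x c) := by
  have e1 := iip hA h2 h d e x y c
  have e2 := iip hA h2 h d e y x c
  have e3 : Xi s d e (x * y) c + Xi s d e (y * x) c = 0 := by
    have : Xi s d e (cm x y) c = 0 := by
      rw [Xi13 hA h2 h (cm x y) d e c]
      exact Xi_cz hA h2 h (Cz_cm hA h2 x y) _ _ _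
    rw [← this]
    unfold Xi
    have : cm x y = x * y + y * x := rfl
    rw [this, cm_add_left, asc_add1, mul_add]
    abel
  rw [e1, e2, psi12 hA h2 h x y c, t12 hA h2 y x c] at e3
  unfold cm
  linear_combination (norm := (
      (try abel_nf)
      (try simp only [zm1 h2, zm2 h2, zm3 h2, zm4 h2, zm5 h2, zm6 h2, zp2 h2, zp3 h2, zp4 h2,
        zp5 h2, zp6 h2, add_zero, zero_add]))) e3

/-- the cyclic sum of `Xi(cd|be,f)` -/
lemma Xi_sum {s : B} (h : Z1 s) (b e f c d : B) : Xi s c d (b * e) f + Xi s c d (e * f) b +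
    Xi s c d (f * b) e = asc s c d * asc b e f := by
  have e1 := cyc_t hA h2 (h.A hA h2 c d) b e f
  rw [i1 hA h2 b e f]
  unfold Xi
  have f1 : asc (b * e) f (asc s c d) = asc (asc s c d) (b * e) f := (tcyc hA _ _ _).symm
  have f2 : asc (e * f) b (asc s c d) = asc (asc s c d) (e * f) b := (tcyc hA _ _ _).symm
  have f3 : asc (f * b) e (asc s c d) = asc (asc s c d) (f * b) e := (tcyc hA _ _ _).symm
  rw [f1, f2, f3, mul_add, mul_add]
  linear_combination (norm := (
      (try abel_nf)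
      (try simp only [zm1 h2, zm2 h2, zm3 h2, zm4 h2, zm5 h2, zm6 h2, zp2 h2, zp3 h2, zp4 h2,
        zp5 h2, zp6 h2, add_zero, zero_add]))) e1

lemma P_eq {s : B} (h : Z1 s) (b e f c d : B) : asc c d (psi s b e f) = cm b (Xi s c d e f) := by
  have e0 := Xi_sum hA h2 h b e f c d
  have e1 := iip hA h2 h c d b e f
  have e2 := iip hA h2 h c d e f b
  have e3 := iip hA h2 h c d f b e
  have k1 := kxy hA h2 h e b f c d
  have k2 := kxy hA h2 h f b e c d
  rw [Xi34 hA h2 s c d e f] at k2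
  have p1 : psi s e f b = psi s b e f := psi_cyc hA h2 h b e f
  have p2 : psi s f b e = psi s b e f := by rw [psi_cyc hA h2 h e f b, p1]
  have t1 : asc e f b = asc b e f := (tcyc hA b e f).symm
  have t2 : asc f b e = asc b e f := by rw [t1.symm, tcyc hA e f b]
  rw [p1, t1, Xi34 hA h2 s c d b f, Xi34 hA h2 s c d b e] at e2
  rw [p2, t2, Xi34 hA h2 s c d e f] at e3
  rw [e1, e2, e3] at e0
  unfold cm at k1 k2 ⊢
  linear_combination (norm := (
      (try abel_nf)
      (try simp only [zm1 h2, zm2 h2, zm3 h2, zm4 h2, zm5 h2, zm6 h2, zp2 h2, zp3 h2, zp4 h2,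
        zp5 h2, zp6 h2, add_zero, zero_add]))) e0 + k1 + k2

lemma tT {s : B} (h : Z1 s) (b e f c d : B) : asc s c d * asc b e f = 0 := by
  have e0 := Xi_sum hA h2 h b e f c d
  have e1 := ip hA h2 h b e f c d
  have e2 := ip hA h2 h e f b c d
  have e3 := ip hA h2 h f b e c d
  have k1 := kxy hA h2 h e b f c d
  have k2 := kxy hA h2 h f b e c d
  rw [Xi34 hA h2 s c d e f] at k2
  rw [P_eq hA h2 h f c d b e] at e1
  rw [P_eq hA h2 h b c d e f] at e2
  rw [P_eq hA h2 h e c d f b] at e3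
  rw [XiX hA h2 h c d b e, XiX hA h2 h c d b f, XiX hA h2 h c d e f, XiX hA h2 h c d (b * e) f] at e1
  rw [XiX hA h2 h c d e f, XiX hA h2 h c d e b, XiX hA h2 h c d f b, XiX hA h2 h c d (e * f) b,
    Xi34 hA h2 s c d b e, Xi34 hA h2 s c d b f] at e2
  rw [XiX hA h2 h c d f b, XiX hA h2 h c d f e, XiX hA h2 h c d b e, XiX hA h2 h c d (f * b) e,
    Xi34 hA h2 s c d e f, Xi34 hA h2 s c d b f] at e3
  rw [← e0, e1, e2, e3]
  rw [t23 hA h2 s f b, t23 hA h2 s e b, t23 hA h2 s f e]
  unfold cm at *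
  linear_combination (norm := (
      (try abel_nf)
      (try simp only [zm1 h2, zm2 h2, zm3 h2, zm4 h2, zm5 h2, zm6 h2, zp2 h2, zp3 h2, zp4 h2,
        zp5 h2, zp6 h2, add_zero, zero_add])))

end

/-- rule S in characteristic 2 -/
theorem ruleS {B : Type} [NonUnitalNonAssocRing B] (hR : Rules2 B) (s : B)
    (h : ∀ a b, cm s (cm a b) = 0) : s = 0 := by
  have hA := hR.alt
  have h2 := hR.two
  have hs : Z1 s := h
  apply hR.nuc
  intro c d
  have hg : Z1 (asc s c d) := hs.A hA h2 c d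
  have t1 : ∀ x y z, asc s c d * asc x y z = 0 := fun x y z => tT hA h2 hs x y z c d
  have t2 : ∀ x y z, asc x y z * asc s c d = 0 := fun x y z => by
    rw [← mul_comm_cm hA h2 (hg.T hA h2 x y z), t1]
  apply hR.ann _ t1 t2
  intro x a b e
  have e1 := m1 hA h2 (asc s c d) x (asc a b e)
  rw [t1, mul_zero, zero_add] at e1
  have e2 := cm_mul' hA h2 (asc s c d) (asc a b e) x
  rw [t1, cm_zero_right] at e2
  have e3 : Xi s c d x (asc a b e) = 0 := by
    rw [Xi34 hA h2 s c d (asc a b e) x, Xi13 hA h2 hs (asc a b e) c d x]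
    exact Xi_cz hA h2 hs (Cz_asc hA h2 a b e) _ _ _
  unfold Xi at e3
  have e4 : asc (asc s c d) (asc a b e) x = asc x (asc a b e) (asc s c d) := by
    rw [tcyc hA, t12 hA h2, tcyc hA, t12 hA h2]
  rw [e4] at e2
  rw [e1, cm_comm]
  linear_combination (norm := (
      (try abel_nf)
      (try simp only [zm1 h2, zm2 h2, zm3 h2, zm4 h2, zm5 h2, zm6 h2, zp2 h2, zp3 h2, zp4 h2,
        zp5 h2, zp6 h2, add_zero, zero_add]))) e2 + e3

end Pool.Agent.TP.RS
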